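import Pool.Agent.H897R2.BlumC

/-!
# A compact linearly ordered space without the Blumberg property, in ZFC (MP_184855_gt)

Let `S ⊆ ω₁` be stationary with stationary complement.  The points of the space are the subsets
`b ⊆ S` such that every limit point of `b` in `S` belongs to `b`, and every limit point of `b` not
in `S` is an upper bound of `b`; they are ordered lexicographically (as characteristic functions).
As the complement of `S` is stationary, every such set is bounded in `ω₁`.  All suprema exist, so
the order topology is compact.  The closed bounded subsets of `S`, ordered by end-extension, form
a tree whose cones are a π-base, and as `S` is stationary this tree is `ω`-distributive.  The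
function sending `b` to a real number coding a bound of `b` is continuous on no dense set.
-/

set_option autoImplicit false

namespace Pool.Agent.Results.MP_184855_gt.CompactLots

/-- The Blumberg property: every real function on `X` has a continuous restriction to some dense
subset of `X` (with the subspace topology). -/
def BlumbergProperty (X : Type) [TopologicalSpace X] : Prop :=
  ∀ f : X → ℝ, ∃ D : Set X, Dense D ∧ Continuous (D.restrict f)

/-- **Main theorem.**  There is a compact linearly ordered topological space which does not have
the Blumberg property. -/
theorem result : ∃ (X : Type) (_ : LinearOrder X) (_ : TopologicalSpace X),
    OrderTopology X ∧ CompactSpace X ∧ ¬ BlumbergProperty X := by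
  obtain ⟨X, hL, hT, hO, hC, f, hf⟩ := Pool.Agent.H897R2.Blum.exists_space
  refine ⟨X, hL, hT, hO, hC, fun h => ?_⟩
  obtain ⟨D, hD, hc⟩ := h f
  exact hf D hD (continuousOn_iff_continuous_restrict.2 hc)

end Pool.Agent.Results.MP_184855_gt.CompactLots
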